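import Pool.Agent.D0H5.CGX.Sig
import Pool.Agent.N53.CL.Both

/-!
# Class groups whose `m`-rank exceeds the number of complex places by any given number

The open question asks for number fields of fixed degree `n` whose class groups have unbounded `m`-rank. For every `m` the
classical construction (Azuhata-Ichimura, Nakano) gives fields of degree `n` with `r₂` complex places and `m`-rank at least
`r₂ + 1`; the starting results have `r₂ + 6` for all large `n` (and `r₂ + n - 1` for `n ≤ 10` and `n = 12`).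

Here the excess over `r₂` is unbounded: for all `κ`, `ρ` and every `n ≥ n₀(κ, ρ)` there are, for all `m ≥ 2` at once, infinitely
many fields of degree `n` with `m`-rank at least `r₂ + κ`, for every signature with at most `ρ` real places and for totally real
fields.

The fields are `ℚ(θ)`, `L A(θ) + s ^ m = 0`, for a polynomial `A = ∏ (X - a i)` with `n` different rational roots which takes
the same positive value at `κ` given points `b 1, …, b κ` (multiplicative Prouhet-Tarry-Escott problem). New is the proof that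
such polynomials exist for all `κ` and all large `n`, for any prescribed points (`exists_good` in `D0H5/CGX/Core`). The roots are
`b j - κ_j W N / r` with `κ_j ∏ (b j - b i) = C` for all `j`, `N < 2 ^ κ` and `r ≡ 1` modulo `W` in a long interval. For a cube
of such points the values at the points `b i` change by factors which do not depend on `i`, except for one factor `r` at `b j`
(signed cubes have vanishing projections in `κ - 1` directions), and the product over a whole interval of `r` telescopes; so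
both ends of the interval are compensated by finitely many cubes. Finitely many further roots may be prescribed; taking `r₁` of
them far to the left of the others, with quickly increasing distances, gives exactly `r₁` real solutions of `A = - v`
(`exists_good_wide` in `D0H5/CGX/Sig`).
-/

set_option autoImplicit false

namespace Pool.Agent.Results.MP_176ace_nt.UnboundedExcess

open NumberField Pool.Agent.W289.CG Pool.Agent.N53.CL

theorem fields_of_data {n k κ r₁ r₂ : ℕ} (hn : 3 ≤ n) (hk : 1 ≤ k) (hκ : κ ≤ k)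
    (hr : r₁ + 2 * r₂ = n) (D : Dat n k) (v₁ v₂ : ℝ) (h₁ : 0 < v₁) (h₁₂ : v₁ < v₂) (hcount : ∀ v, v₁ < v → v < v₂ →
      {X : ℝ | ∏ i, (X - (D.a i : ℝ)) = - v}.ncard = r₁) :
    ∃ Z : ℕ, 0 < Z ∧ ∀ m N R : ℕ, 2 ≤ m → ∀ S T : Finset ℕ,
    (∀ p ∈ S, p.Prime ∧ ¬ p ∣ Z) → (∀ q ∈ T, q.Prime ∧ ¬ q ∣ Z ∧ ¬ q ∣ m) → Disjoint S T →
    ∃ (K : Type) (_ : Field K) (_ : NumberField K), Module.finrank ℚ K = n ∧
      InfinitePlace.nrRealPlaces K = r₁ ∧ InfinitePlace.nrComplexPlaces K = r₂ ∧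
      (N : ℤ) < |discr K| ∧
      (∃ f : Multiplicative (Fin (r₂ + κ) → ZMod m) →* ClassGroup (𝓞 K), Function.Injective f) ∧
      (∃ f : Multiplicative (Fin R → ZMod n) →* ClassGroup (𝓞 K), Function.Injective f) ∧
      (∀ p ∈ S, ∃ P : Fin n → Ideal (𝓞 K), Function.Injective P ∧ (∀ i, (P i).IsPrime) ∧
        ∏ i, P i = Ideal.span {(p : 𝓞 K)}) ∧
      ∀ q ∈ T, ∃ P : Ideal (𝓞 K), P.IsPrime ∧ P ^ n = Ideal.span {(q : 𝓞 K)} := by
  have hZ0 : D.c * |D.bad| ≠ 0 := (mul_pos D.hc (abs_pos.2 (bad_ne D))).ne'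
  refine ⟨(D.c * |D.bad|).natAbs, Int.natAbs_pos.2 hZ0, fun m N R hm S T hS hT hST => ?_⟩
  obtain ⟨K, hK1, hK2, hfr, hreal, hdisc, hspl, hram, hcl, hR⟩ :=
    of_both (by omega) hk D r₁ v₁ v₂ h₁ h₁₂ hcount m N R hm S T
      (fun p hp => ⟨(hS p hp).1, fun h => (hS p hp).2 (Int.natCast_dvd.1 h)⟩)
      (fun q hq => ⟨(hT q hq).1, fun h => (hT q hq).2.1 (Int.natCast_dvd.1 h)⟩) hST
      (fun q hq => (hT q hq).2.2)
  have h8 := InfinitePlace.card_add_two_mul_card_eq_rank K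
  have h7 := rank_eq K
  refine ⟨K, hK1, hK2, hfr, hreal, ?_, hdisc, hcl (r₂ + κ) ?_, hR, hspl, hram⟩
  · omega
  · omega

theorem one_signature (κ r₁ : ℕ) : ∃ n₀ : ℕ, ∀ n r₂ : ℕ, n₀ ≤ n → r₁ + 2 * r₂ = n →
    ∃ (D : Dat n (κ + 2)) (v₁ v₂ : ℝ), 0 < v₁ ∧ v₁ < v₂ ∧ ∀ v, v₁ < v → v < v₂ →
      {X : ℝ | ∏ i, (X - (D.a i : ℝ)) = - v}.ncard = r₁ := by
  rcases Nat.eq_zero_or_pos r₁ with h0 | h0
  · subst h0
    obtain ⟨n₀, hn₀⟩ := Pool.Agent.D0H5.CGX.exists_dat (κ + 2) (by omega)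
    refine ⟨n₀ + 3, fun n r₂ hn hr => ?_⟩
    obtain ⟨D⟩ := hn₀ n (by omega)
    exact ⟨D, data_ext (by omega) D 0 r₂ hr (by omega)⟩
  · obtain ⟨n₀, hn₀⟩ := Pool.Agent.D0H5.CGX.exists_dat_wide (κ + 2) (by omega) r₁ h0
    refine ⟨n₀, fun n r₂ hn hr => ?_⟩
    exact hn₀ n hn ⟨r₂, by omega⟩

/-- For all `κ`, `ρ` there is `n₀` such that for every degree `n ≥ n₀` and every signature `(r₁, r₂)` of degree `n` with
`r₁ ≤ ρ` or `r₂ = 0` there is `Z > 0` such that for all `m ≥ 2`, `N`, `R` and all disjoint finite sets `S`, `T` of primes not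
dividing `Z` (those of `T` not dividing `m`) there is a number field `K` of degree `n` and signature `(r₁, r₂)` with
`|discr K| > N` whose class group contains `(ℤ/m)^(r₂+κ)` and `(ℤ/n)^R`, in which every prime of `S` splits completely and every
prime of `T` is totally ramified. -/
theorem result (κ ρ : ℕ) : ∃ n₀ : ℕ, ∀ n r₁ r₂ : ℕ, n₀ ≤ n → r₁ + 2 * r₂ = n → (r₁ ≤ ρ ∨ r₂ = 0) →
    ∃ Z : ℕ, 0 < Z ∧ ∀ m N R : ℕ, 2 ≤ m → ∀ S T : Finset ℕ,
    (∀ p ∈ S, p.Prime ∧ ¬ p ∣ Z) → (∀ q ∈ T, q.Prime ∧ ¬ q ∣ Z ∧ ¬ q ∣ m) → Disjoint S T →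
    ∃ (K : Type) (_ : Field K) (_ : NumberField K), Module.finrank ℚ K = n ∧
      InfinitePlace.nrRealPlaces K = r₁ ∧ InfinitePlace.nrComplexPlaces K = r₂ ∧
      (N : ℤ) < |discr K| ∧
      (∃ f : Multiplicative (Fin (r₂ + κ) → ZMod m) →* ClassGroup (𝓞 K), Function.Injective f) ∧
      (∃ f : Multiplicative (Fin R → ZMod n) →* ClassGroup (𝓞 K), Function.Injective f) ∧
      (∀ p ∈ S, ∃ P : Fin n → Ideal (𝓞 K), Function.Injective P ∧ (∀ i, (P i).IsPrime) ∧
        ∏ i, P i = Ideal.span {(p : 𝓞 K)}) ∧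
      ∀ q ∈ T, ∃ P : Ideal (𝓞 K), P.IsPrime ∧ P ^ n = Ideal.span {(q : 𝓞 K)} := by
  obtain ⟨n₀, hn₀⟩ := Pool.Agent.D0H5.CGX.exists_dat (κ + 2) (by omega)
  choose f hf using one_signature κ
  refine ⟨n₀ + 3 + ∑ r₁ ∈ Finset.range (ρ + 1), f r₁, fun n r₁ r₂ hn hr h => ?_⟩
  rcases h with h | h
  · have h1 : f r₁ ≤ ∑ r₁ ∈ Finset.range (ρ + 1), f r₁ :=
      Finset.single_le_sum (f := f) (fun _ _ => Nat.zero_le _) (Finset.mem_range.2 (by omega))
    obtain ⟨D, v₁, v₂, h2, h3, h4⟩ := hf r₁ n r₂ (by omega) hr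
    exact fields_of_data (by omega) (by omega) (by omega) hr D v₁ v₂ h2 h3 h4
  · obtain ⟨D⟩ := hn₀ n (by omega)
    obtain ⟨v₁, v₂, h1, h2, h3⟩ := data_ext (by omega) D r₁ r₂ hr (by omega)
    exact fields_of_data (by omega) (by omega) (by omega) hr D v₁ v₂ h1 h2 h3

end Pool.Agent.Results.MP_176ace_nt.UnboundedExcess
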